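import Pool.Agent.Helper68.Dom.Goals
import Mathlib

/-!
# Project DOM (MP_18808e_co), packet SPAN
-/

set_option autoImplicit false

namespace NApexGraphs.Dom.Helper91

theorem gSPAN : Goals.SPAN := by
  intro V W _ _ G H n hG hH hHG
  by_contra hne
  have e : W ≃ Fin (Nat.card W) := Finite.equivFin W
  have hiso : H ≃g H.map e.toEmbedding := SimpleGraph.Iso.map e H
  have h1 : NApex n (H.map e.toEmbedding) :=
    hG.2 _ _ ((IsMinor.of_iso hiso.symm).trans hHG) ⟨fun f => hne ⟨hiso.trans f⟩⟩
  exact hH (NApex.of_isMinor (IsMinor.of_iso hiso) h1)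

end NApexGraphs.Dom.Helper91
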